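import Pool.Agent.W662.CB.Stmts

/-!
Part CB-E4: the family of exponentials.
-/

set_option autoImplicit false

open MeasureTheory Filter Topology Complex
open scoped InnerProductSpace ENNReal

namespace Pool.Agent.W685.CB.E4

open Pool.Agent.W662.CB

noncomputable section

variable {H : Type} [NormedAddCommGroup H] [InnerProductSpace ℂ H] [CompleteSpace H]

theorem mul_sub {g h : ℝ → ℂ} {S S' : LR H →L[ℂ] LR H} (hS : IsMulOp g S) (hS' : IsMulOp h S') :
    IsMulOp (fun s => g s - h s) (S - S') := by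
  intro f
  have h1 : (S - S') f = S f - S' f := rfl
  rw [h1]
  filter_upwards [Lp.coeFn_sub (S f) (S' f), hS f, hS' f] with s e1 e2 e3
  rw [e1, Pi.sub_apply, e2, e3, sub_smul]

theorem mul_smul {g : ℝ → ℂ} {S : LR H →L[ℂ] LR H} (c : ℂ) (hS : IsMulOp g S) :
    IsMulOp (fun s => c * g s) (c • S) := by
  intro f
  have h1 : (c • S) f = c • S f := rfl
  rw [h1]
  filter_upwards [Lp.coeFn_smul c (S f), hS f] with s e1 e2
  rw [e1, Pi.smul_apply, e2, smul_smul]

theorem norm_le (h2 : S_E2) (h2b : S_E2b) {g : ℝ → ℂ} {S : LR H →L[ℂ] LR H} {C : ℝ}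
    (hm : Measurable g) (hg : ∀ s, ‖g s‖ ≤ C) (hS : IsMulOp g S) : ‖S‖ ≤ C := by
  obtain ⟨S', hS', hn⟩ := h2 H g C hm hg
  rw [(h2b H).1 g S S' hS hS']
  exact hn

/-- the multiplier -/
def gz (W : ℝ) (z : ℂ) (w : ℝ) : ℂ :=
  Set.indicator (Set.Icc 0 W) (fun w : ℝ => Complex.exp (2 * Real.pi * I * z * w)) w

/-- the derivative -/
def qz (W : ℝ) (w : ℝ) : ℂ := Set.indicator (Set.Icc 0 W) (fun w : ℝ => 2 * Real.pi * I * w) w

theorem meas_gz (W : ℝ) (z : ℂ) : Measurable (gz W z) := by
  have : Measurable fun w : ℝ => Complex.exp (2 * Real.pi * I * z * w) := by fun_prop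
  exact this.indicator measurableSet_Icc

theorem meas_qz (W : ℝ) : Measurable (qz W) := by
  have : Measurable fun w : ℝ => (2 * Real.pi * I * w : ℂ) := by fun_prop
  exact this.indicator measurableSet_Icc

theorem norm_arg {W : ℝ} {w : ℝ} (hw : w ∈ Set.Icc 0 W) (z : ℂ) :
    ‖2 * Real.pi * I * z * w‖ ≤ 2 * Real.pi * ‖z‖ * W := by
  have hpi := Real.pi_pos
  rw [norm_mul, norm_mul, norm_mul, norm_mul, Complex.norm_I, Complex.norm_real,
    Complex.norm_real, Real.norm_eq_abs, Real.norm_eq_abs, abs_of_pos hpi, abs_of_nonneg hw.1,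
    Complex.norm_ofNat, mul_one]
  exact mul_le_mul_of_nonneg_left hw.2 (by positivity)

theorem norm_gz {W : ℝ} (z : ℂ) (w : ℝ) : ‖gz W z w‖ ≤ Real.exp (2 * Real.pi * ‖z‖ * W) := by
  unfold gz
  by_cases hw : w ∈ Set.Icc 0 W
  · rw [Set.indicator_of_mem hw]
    exact (Complex.norm_exp_le_exp_norm _).trans (Real.exp_le_exp.2 (norm_arg hw z))
  · rw [Set.indicator_of_notMem hw, norm_zero]
    exact (Real.exp_pos _).le

theorem norm_qz {W : ℝ} (hW : 0 < W) (w : ℝ) : ‖qz W w‖ ≤ 2 * Real.pi * W := by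
  have hpi := Real.pi_pos
  unfold qz
  by_cases hw : w ∈ Set.Icc 0 W
  · rw [Set.indicator_of_mem hw]
    have := norm_arg hw 1
    rw [norm_one, mul_one, mul_one] at this
    exact this
  · rw [Set.indicator_of_notMem hw, norm_zero]
    positivity

/-- the remainder -/
theorem norm_rem {W : ℝ} (hW : 0 < W) (z z' : ℂ) (hz : 2 * Real.pi * ‖z' - z‖ * W ≤ 1) (w : ℝ) :
    ‖gz W z' w - gz W z w - (z' - z) * (qz W w * gz W z w)‖
      ≤ Real.exp (2 * Real.pi * ‖z‖ * W) * (2 * Real.pi * W) ^ 2 * ‖z' - z‖ ^ 2 := by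
  have hpi := Real.pi_pos
  by_cases hw : w ∈ Set.Icc 0 W
  · unfold gz qz
    rw [Set.indicator_of_mem hw, Set.indicator_of_mem hw, Set.indicator_of_mem hw]
    have e1 : Complex.exp (2 * Real.pi * I * z' * w) - Complex.exp (2 * Real.pi * I * z * w)
        - (z' - z) * (2 * Real.pi * I * w * Complex.exp (2 * Real.pi * I * z * w))
        = Complex.exp (2 * Real.pi * I * z * w)
          * (Complex.exp (2 * Real.pi * I * (z' - z) * w) - 1 - 2 * Real.pi * I * (z' - z) * w) := by
      have : Complex.exp (2 * Real.pi * I * z' * w)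
          = Complex.exp (2 * Real.pi * I * z * w)
            * Complex.exp (2 * Real.pi * I * (z' - z) * w) := by
        rw [← Complex.exp_add]
        congr 1
        ring
      rw [this]
      ring
    rw [e1, norm_mul]
    have h1 := (Complex.norm_exp_le_exp_norm _).trans (Real.exp_le_exp.2 (norm_arg hw z))
    have h2 := norm_arg hw (z' - z)
    have h3 := Complex.norm_exp_sub_one_sub_id_le (h2.trans hz)
    have h4 : ‖2 * Real.pi * I * (z' - z) * w‖ ^ 2 ≤ (2 * Real.pi * ‖z' - z‖ * W) ^ 2 :=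
      pow_le_pow_left₀ (norm_nonneg _) h2 2
    calc _ ≤ Real.exp (2 * Real.pi * ‖z‖ * W) * (2 * Real.pi * ‖z' - z‖ * W) ^ 2 :=
          mul_le_mul h1 (h3.trans h4) (norm_nonneg _) (Real.exp_pos _).le
      _ = _ := by ring
  · unfold gz qz
    rw [Set.indicator_of_notMem hw, Set.indicator_of_notMem hw, Set.indicator_of_notMem hw]
    simp only [mul_zero, sub_zero, norm_zero]
    positivity

theorem e4 (h2 : S_E2) (h2b : S_E2b) : S_E4 := by
  intro H _ _ _ W hW
  have hpi := Real.pi_pos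
  have hex : ∀ z : ℂ, ∃ S : LR H →L[ℂ] LR H, IsMulOp (gz W z) S := fun z => by
    obtain ⟨S, hS, -⟩ := h2 H (gz W z) _ (meas_gz W z) (norm_gz z)
    exact ⟨S, hS⟩
  choose E hE using hex
  obtain ⟨Q, hQ, -⟩ := h2 H (qz W) _ (meas_qz W) (norm_qz hW)
  refine ⟨E, hE, ?_, ?_⟩
  · intro z
    have hD : HasDerivAt E (Q * E z) z := by
      rw [hasDerivAt_iff_isLittleO, Asymptotics.isLittleO_iff]
      intro c hc
      obtain ⟨K, hK⟩ : ∃ K, K = Real.exp (2 * Real.pi * ‖z‖ * W) * (2 * Real.pi * W) ^ 2 :=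
        ⟨_, rfl⟩
      have hKpos : 0 < K := by rw [hK]; positivity
      have hev : ∀ᶠ z' in 𝓝 z, ‖z' - z‖ < min (1 / (2 * Real.pi * W)) (c / K) := by
        have := Metric.ball_mem_nhds z (show 0 < min (1 / (2 * Real.pi * W)) (c / K) from
          lt_min (by positivity) (by positivity))
        filter_upwards [this] with z' hz'
        rwa [← dist_eq_norm]
      filter_upwards [hev] with z' hz'
      have hz1 : 2 * Real.pi * ‖z' - z‖ * W ≤ 1 := by
        have h := (hz'.trans_le (min_le_left _ _)).le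
        rw [le_div_iff₀ (by positivity)] at h
        linarith
      have hz2 : K * ‖z' - z‖ ≤ c := by
        have h := (hz'.trans_le (min_le_right _ _)).le
        rw [le_div_iff₀ hKpos] at h
        linarith
      have hop : IsMulOp (fun s => gz W z' s - gz W z s - (z' - z) * (qz W s * gz W z s))
          (E z' - E z - (z' - z) • (Q * E z)) :=
        mul_sub (mul_sub (hE z') (hE z)) (mul_smul (z' - z) ((h2b H).2.2.1 _ _ _ _ hQ (hE z)))
      have hb := norm_le h2 h2b (((meas_gz W z').sub (meas_gz W z)).sub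
        (measurable_const.mul ((meas_qz W).mul (meas_gz W z)))) (norm_rem hW z z' hz1) hop
      refine hb.trans ?_
      rw [← hK]
      nlinarith [norm_nonneg (z' - z)]
    exact hD.differentiableAt
  · intro z
    refine norm_le h2 h2b ((meas_gz W z).sub (meas_gz W 0)) (fun w => ?_)
      (mul_sub (hE z) (hE 0))
    by_cases hw : w ∈ Set.Icc 0 W
    · show ‖gz W z w - gz W 0 w‖ ≤ _
      unfold gz
      rw [Set.indicator_of_mem hw, Set.indicator_of_mem hw]
      have h0 : Complex.exp (2 * Real.pi * I * 0 * w) = 1 := by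
        rw [mul_zero, zero_mul, Complex.exp_zero]
      rw [h0]
      have h1 := Complex.norm_exp_sub_sum_le_exp_norm_sub_sum (2 * Real.pi * I * z * w) 1
      simp only [Finset.range_one, Finset.sum_singleton, pow_zero, Nat.factorial_zero,
        Nat.cast_one, div_one] at h1
      have h3 := Real.exp_le_exp.2 (norm_arg hw z)
      linarith
    · show ‖gz W z w - gz W 0 w‖ ≤ _
      unfold gz
      rw [Set.indicator_of_notMem hw, Set.indicator_of_notMem hw, sub_zero, norm_zero]
      have : (1 : ℝ) ≤ Real.exp (2 * Real.pi * ‖z‖ * W) := Real.one_le_exp (by positivity)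
      linarith

end

end Pool.Agent.W685.CB.E4
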